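import Pool.Agent.L0h32.UX.Stm

/-!
# Project UX: modules YES and EXI
-/

set_option autoImplicit false
set_option linter.all false

namespace Pool.Agent.L0h71.UX

open Relation
open Pool.Agent.H630R2.LA (LimAut Sym Cfg Step init initTape WS lrel bitS ix nr Ann keep)
open Pool.Agent.L0h32.UX

/-- the record after a new value -/
lemma recOK_upd {h : ℕ} {r : Rec} {T : Finset (Fin (2 ^ h))} {g g' : Fin (2 ^ h) → ℕ}
    {q0 : Fin (2 ^ h)} {v : ℕ} (hr : RecOK h r T g) (hg : ∀ q ∈ T, g' q = g q) (hv : g' q0 = v)
    (hq0 : q0 ∉ T) : RecOK h (upd r v) (insert q0 T) g' := by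
  obtain ⟨h1, h2, h3⟩ := hr
  have hmem : q0 ∈ insert q0 T := Finset.mem_insert_self _ _
  cases hh : r.has with
  | false =>
    have hT : T = ∅ := by
      by_contra hne
      have := h1.2 (Finset.nonempty_iff_ne_empty.2 hne)
      rw [hh] at this
      exact absurd this (by simp)
    have hu : upd r v = ⟨true, v, false⟩ := by
      unfold upd
      rw [hh]
      simp
    rw [hu]
    refine ⟨⟨fun _ => ⟨q0, hmem⟩, fun _ => rfl⟩, fun h => absurd h (by simp), fun _ => ⟨⟨q0, hmem, hv⟩, ?_, ?_⟩⟩
    · intro q hq
      rw [hT, Finset.mem_insert] at hq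
      rcases hq with rfl | hq
      · exact hv.ge
      · exact absurd hq (Finset.notMem_empty _)
    · constructor
      · intro h; exact absurd h (by simp)
      · rintro ⟨q, hq, q', hq', hne, -, -⟩
        rw [hT, Finset.mem_insert] at hq hq'
        rcases hq with rfl | hq
        · rcases hq' with rfl | hq'
          · exact absurd rfl hne
          · exact absurd hq' (Finset.notMem_empty _)
        · exact absurd hq (Finset.notMem_empty _)
  | true =>
    obtain ⟨⟨qm, hqm, hqmv⟩, h4, h5⟩ := h3 hh
    by_cases hlt : v < r.mn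
    · have hu : upd r v = ⟨true, v, false⟩ := by
        unfold upd
        rw [hh, if_pos rfl, if_pos hlt]
      rw [hu]
      have hval : ∀ q ∈ insert q0 T, g' q = v → q = q0 := by
        intro q hq hqv
        rw [Finset.mem_insert] at hq
        rcases hq with rfl | hq
        · rfl
        · have := h4 q hq
          rw [hg q hq] at hqv
          omega
      refine ⟨⟨fun _ => ⟨q0, hmem⟩, fun _ => rfl⟩, fun h => absurd h (by simp), fun _ => ⟨⟨q0, hmem, hv⟩, ?_, ?_⟩⟩
      · intro q hq
        rw [Finset.mem_insert] at hq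
        rcases hq with rfl | hq
        · exact hv.ge
        · have := h4 q hq
          rw [hg q hq]
          show v ≤ g q
          omega
      · constructor
        · intro h; exact absurd h (by simp)
        · rintro ⟨q, hq, q', hq', hne, e1, e2⟩
          exact absurd ((hval q hq e1).trans (hval q' hq' e2).symm) hne
    · by_cases heq : v = r.mn
      · have hu : upd r v = ⟨true, r.mn, true⟩ := by
          unfold upd
          rw [hh, if_pos rfl, if_neg hlt, if_pos heq]
        rw [hu]
        refine ⟨⟨fun _ => ⟨q0, hmem⟩, fun _ => rfl⟩, fun h => absurd h (by simp),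
          fun _ => ⟨⟨q0, hmem, hv.trans heq⟩, ?_, ?_⟩⟩
        · intro q hq
          rw [Finset.mem_insert] at hq
          rcases hq with rfl | hq
          · show r.mn ≤ g' q
            omega
          · rw [hg q hq]
            exact h4 q hq
        · refine ⟨fun _ => ⟨q0, hmem, qm, Finset.mem_insert_of_mem hqm, ?_, hv.trans heq, ?_⟩, fun _ => rfl⟩
          · rintro rfl
            exact hq0 hqm
          · rw [hg qm hqm]
            exact hqmv
      · have hu : upd r v = r := by
          unfold upd
          rw [hh, if_pos rfl, if_neg hlt, if_neg heq]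
        rw [hu]
        refine ⟨⟨fun _ => ⟨q0, hmem⟩, fun _ => hh⟩, fun h => ?_,
          fun _ => ⟨⟨qm, Finset.mem_insert_of_mem hqm, ?_⟩, ?_, ?_⟩⟩
        · rw [hh] at h
          exact absurd h (by simp)
        · rw [hg qm hqm]
          exact hqmv
        · intro q hq
          rw [Finset.mem_insert] at hq
          rcases hq with rfl | hq
          · omega
          · rw [hg q hq]
            exact h4 q hq
        · rw [h5]
          constructor
          · rintro ⟨q, hq, q', hq', hne, e1, e2⟩
            refine ⟨q, Finset.mem_insert_of_mem hq, q', Finset.mem_insert_of_mem hq', hne, ?_, ?_⟩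
            · rw [hg q hq]; exact e1
            · rw [hg q' hq']; exact e2
          · rintro ⟨q, hq, q', hq', hne, e1, e2⟩
            rw [Finset.mem_insert] at hq hq'
            have hq1 : q ∈ T := by
              rcases hq with rfl | hq
              · exfalso; omega
              · exact hq
            have hq2 : q' ∈ T := by
              rcases hq' with rfl | hq'
              · exfalso; omega
              · exact hq'
            refine ⟨q, hq1, q', hq2, hne, ?_, ?_⟩
            · rw [← hg q hq1]; exact e1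
            · rw [← hg q' hq2]; exact e2

/-- the record does not depend on the values outside -/
lemma recOK_congr {h : ℕ} {r : Rec} {T : Finset (Fin (2 ^ h))} {g g' : Fin (2 ^ h) → ℕ}
    (hr : RecOK h r T g) (hg : ∀ q ∈ T, g' q = g q) : RecOK h r T g' := by
  obtain ⟨h1, h2, h3⟩ := hr
  refine ⟨h1, h2, fun hh => ?_⟩
  obtain ⟨⟨qm, hqm, hqmv⟩, h4, h5⟩ := h3 hh
  refine ⟨⟨qm, hqm, by rw [hg qm hqm]; exact hqmv⟩, fun q hq => by rw [hg q hq]; exact h4 q hq, ?_⟩
  rw [h5]
  constructor
  · rintro ⟨q, hq, q', hq', hne, e1, e2⟩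
    exact ⟨q, hq, q', hq', hne, by rw [hg q hq]; exact e1, by rw [hg q' hq']; exact e2⟩
  · rintro ⟨q, hq, q', hq', hne, e1, e2⟩
    exact ⟨q, hq, q', hq', hne, by rw [← hg q hq]; exact e1, by rw [← hg q' hq']; exact e2⟩

lemma mod_facts (h t : ℕ) : t % 2 ^ h < 2 ^ h ∧ t % 2 ^ h ≤ t ∧ (t < 2 ^ h → t % 2 ^ h = t) ∧
    (2 ^ h ≤ t → t % 2 ^ h + 2 ^ h ≤ t) ∧ t / 2 ^ h * 2 ^ h + t % 2 ^ h = t := by
  have hp : 0 < 2 ^ h := Nat.two_pow_pos h
  have e : t / 2 ^ h * 2 ^ h + t % 2 ^ h = t := by
    rw [Nat.mul_comm]
    exact Nat.div_add_mod t (2 ^ h)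
  refine ⟨Nat.mod_lt _ hp, Nat.mod_le _ _, Nat.mod_eq_of_lt, fun h1 => ?_, e⟩
  have h2 : 1 ≤ t / 2 ^ h := (Nat.one_le_div_iff hp).2 h1
  have h3 : 1 * 2 ^ h ≤ t / 2 ^ h * 2 ^ h := Nat.mul_le_mul_right _ h2
  omega

/-- positions of the layers -/
lemma pos_lt {A : Type} {h : ℕ} {rel : A → Fin (2 ^ h) → Fin (2 ^ h) → Bool} {p0 : Fin (2 ^ h)}
    {w : List A} {t : ℕ} {x : Wr} {fin : Bool} (hx : WOK h rel p0 w t x)
    (h1 : fin = false → t < w.length) (h2 : fin = true → t = w.length) {l : ℕ}
    (hl : l < LL h x fin) : t + 1 - EE h x fin + l < min (t + 1) w.length := by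
  obtain ⟨m1, m2, m3, m4, m5⟩ := mod_facts h t
  obtain ⟨x1, x2, -, -, -⟩ := hx
  unfold LL at hl
  unfold EE
  rw [x2] at hl ⊢
  by_cases hf : t < 2 ^ h
  · have hfirst : x.first = true := by rw [x1]; exact decide_eq_true hf
    have e := m3 hf
    cases fin with
    | true =>
      have := h2 rfl
      simp only [hfirst, if_true] at hl ⊢
      rw [lt_min_iff]
      omega
    | false =>
      have := h1 rfl
      simp only [hfirst, if_true, Bool.false_eq_true, if_false, true_and] at hl ⊢
      split_ifs at hl ⊢ with hk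
      · rw [lt_min_iff]
        omega
      · rw [lt_min_iff]
        omega
  · have hfirst : x.first = false := by rw [x1]; exact decide_eq_false hf
    have e := m4 (by omega)
    cases fin with
    | true =>
      have := h2 rfl
      simp only [hfirst, if_true, Bool.false_eq_true, if_false] at hl ⊢
      rw [lt_min_iff]
      omega
    | false =>
      have := h1 rfl
      simp only [hfirst, Bool.false_eq_true, if_false, false_and] at hl ⊢
      split_ifs with hk
      · rw [lt_min_iff]
        omega
      · rw [lt_min_iff]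
        omega

theorem t_YES : S_YES := by
  classical
  intro A h rel p0 facc K W w t τ ht hA m v hm hl hy hz hv
  obtain ⟨a1, a2, a3, a4, a5, a6, a7, a8, a9, a10, a11, a12, a13, a14, a15, ⟨Z, g, b1, b2, b3, b4⟩, a16⟩ := hm
  have hzv : (ix h m.z).val = m.z := Nat.mod_eq_of_lt hz
  have hnot : ix h m.z ∉ Z := by
    intro hmem
    have := (b1 _ hmem).1
    omega
  have hpos := pos_lt a1 a2 a3 hl
  obtain ⟨a, b, ha1, ha2, -⟩ := hA.2 (t + 1 - EE h m.x m.fin + m.l) hpos
  have hedge : lrel h rel (τ (bt h t m + m.l + 1)) (ix h m.z) (ix h m.y) = true ↔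
      Ed h rel w (bt h t m) m.l (ix h m.z) (ix h m.y) := by
    have e1 : τ (bt h t m + m.l + 1) = .sym (.mark a b) := ha2
    rw [e1]
    constructor
    · intro hr
      exact ⟨a, ha1, hr⟩
    · rintro ⟨a', ha', hr⟩
      have e2 : some a' = some a := ha'.symm.trans ha1
      have e3 : a' = a := Option.some.inj e2
      rw [e3] at hr
      exact hr
  let g' : Fin (2 ^ h) → ℕ := fun q => if q = ix h m.z then v else g q
  have hg'0 : g' (ix h m.z) = v := if_pos rfl
  have hg' : ∀ q ∈ Z, g' q = g q := by
    intro q hq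
    refine if_neg ?_
    rintro rfl
    exact hnot hq
  refine ⟨a1, a2, a3, a4, a5, a6, a7, a8, a9, a10, a11, a12, hz, a14, ?_, ⟨insert (ix h m.z) Z, g', ?_, ?_, ?_, ?_⟩, a16⟩
  · intro h1
    exfalso
    rcases h1 with h1 | h1
    · exact absurd h1 hl.ne
    · exact absurd h1 hy.ne
  · intro q hq
    rw [Finset.mem_insert] at hq
    rcases hq with rfl | hq
    · refine ⟨?_, ?_⟩
      · show (ix h m.z).val < m.z + 1
        omega
      · rw [hg'0]
        exact hv
    · have := b1 q hq
      refine ⟨?_, ?_⟩
      · show q.val < m.z + 1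
        omega
      · rw [hg' q hq]
        exact this.2
  · rw [Finset.card_insert_of_notMem hnot, ← b2]
    rfl
  · rw [Finset.sum_insert hnot, hg'0, Finset.sum_congr rfl hg', ← b3]
    show m.e + v = v + m.e
    omega
  · show RecOK h (if lrel h rel (τ (bt h t m + m.l + 1)) (ix h m.z) (ix h m.y) = true then
        upd m.r (v + W m.i m.l (ix h m.z) (ix h m.y)) else m.r)
      ((insert (ix h m.z) Z).filter fun q => Ed h rel w (bt h t m) m.l q (ix h m.y))
      (fun q => g' q + W m.i m.l q (ix h m.y))
    by_cases hE : Ed h rel w (bt h t m) m.l (ix h m.z) (ix h m.y)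
    · rw [if_pos (hedge.2 hE), Finset.filter_insert, if_pos hE]
      refine recOK_upd b4 ?_ ?_ ?_
      · intro q hq
        show g' q + _ = g q + _
        rw [hg' q (Finset.mem_filter.1 hq).1]
      · show g' (ix h m.z) + _ = v + _
        rw [hg'0]
      · intro hmem
        exact hnot (Finset.mem_filter.1 hmem).1
    · rw [if_neg (fun hh => hE (hedge.1 hh)), Finset.filter_insert, if_neg hE]
      refine recOK_congr b4 ?_
      intro q hq
      show g' q + _ = g q + _
      rw [hg' q (Finset.mem_filter.1 hq).1]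

lemma cnL_succ {A : Type} {h : ℕ} {rel : A → Fin (2 ^ h) → Fin (2 ^ h) → Bool} {p0 : Fin (2 ^ h)}
    (w : List A) (β l y : ℕ) (hy : y < 2 ^ h) [Decidable (nr h rel p0 w (β + l) (ix h y))] :
    cnL h rel p0 w β l (y + 1) =
      cnL h rel p0 w β l y + (if nr h rel p0 w (β + l) (ix h y) then 1 else 0) := by
  classical
  have hyv : (ix h y).val = y := Nat.mod_eq_of_lt hy
  unfold cnL
  by_cases hn : nr h rel p0 w (β + l) (ix h y)
  · rw [if_pos hn]
    have e : (Finset.univ.filter fun q : Fin (2 ^ h) => q.val < y + 1 ∧ nr h rel p0 w (β + l) q) =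
        insert (ix h y) (Finset.univ.filter fun q : Fin (2 ^ h) => q.val < y ∧ nr h rel p0 w (β + l) q) := by
      ext q
      simp only [Finset.mem_filter, Finset.mem_univ, true_and, Finset.mem_insert]
      constructor
      · rintro ⟨h1, h2⟩
        by_cases h3 : q.val < y
        · exact Or.inr ⟨h3, h2⟩
        · left
          apply Fin.ext
          omega
      · rintro (rfl | ⟨h1, h2⟩)
        · exact ⟨by omega, hn⟩
        · exact ⟨by omega, h2⟩
    rw [e, Finset.card_insert_of_notMem]
    simp only [Finset.mem_filter, Finset.mem_univ, true_and]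
    rintro ⟨h1, -⟩
    omega
  · rw [if_neg hn]
    refine Eq.trans ?_ (Nat.add_zero _).symm
    refine congrArg Finset.card ?_
    ext q
    simp only [Finset.mem_filter, Finset.mem_univ, true_and]
    constructor
    · rintro ⟨h1, h2⟩
      refine ⟨?_, h2⟩
      by_contra h3
      apply hn
      have : q = ix h y := by
        apply Fin.ext
        omega
      rw [← this]
      exact h2
    · rintro ⟨h1, h2⟩
      exact ⟨by omega, h2⟩

lemma cb_eq {A : Type} {h : ℕ} {rel : A → Fin (2 ^ h) → Fin (2 ^ h) → Bool} {p0 : Fin (2 ^ h)}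
    {w : List A} {t : ℕ} {x : Wr} (hx : WOK h rel p0 w t x) :
    cb x = cnL h rel p0 w (t / 2 ^ h * 2 ^ h) 0 (t % 2 ^ h + 1) := by
  classical
  obtain ⟨x1, x2, x3, x4, x5⟩ := hx
  rw [cnL_succ w _ 0 _ (Nat.mod_lt _ (Nat.two_pow_pos h)), ← x4]
  unfold cb
  have e : ix h (t % 2 ^ h) = ix h t := by
    apply Fin.ext
    exact Nat.mod_mod _ _
  rw [e]
  congr 1
  by_cases hb : x.b = true
  · have h2 : nr h rel p0 w (t / 2 ^ h * 2 ^ h + 0) (ix h t) := x5.1 hb
    rw [if_pos hb, if_pos h2]
  · have h2 : ¬ nr h rel p0 w (t / 2 ^ h * 2 ^ h + 0) (ix h t) := fun hh => hb (x5.2 hh)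
    rw [if_neg hb, if_neg h2]

lemma cnL_zero {A : Type} {h : ℕ} {rel : A → Fin (2 ^ h) → Fin (2 ^ h) → Bool} {p0 : Fin (2 ^ h)}
    (w : List A) (β l : ℕ) : cnL h rel p0 w β l 0 = 0 := by
  classical
  unfold cnL
  rw [Finset.card_eq_zero, Finset.filter_eq_empty_iff]
  rintro q - ⟨h1, -⟩
  omega

theorem t_EXI : S_EXI := by
  classical
  intro A h rel p0 facc K W w t m hm hl
  obtain ⟨a1, a2, a3, a4, a5, a6, a7, a8, a9, a10, a11, a12, a13, a14, a15, -, a16⟩ := hm
  obtain ⟨m1, m2, m3, m4, m5⟩ := mod_facts h t
  have hx := a1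
  obtain ⟨x1, x2, x3, x4, x5⟩ := a1
  have hf : m.f = true ↔ ∃ q, nr h rel p0 w (bt h t m + Ly h m) q ∧ tst h facc m.x m.fin q = true := by
    rw [a16]
    constructor
    · rintro (⟨-, h1⟩ | ⟨h1, -⟩)
      · exact h1
      · exfalso
        omega
    · intro h1
      exact Or.inl ⟨hl, h1⟩
  constructor
  · intro hfin
    have hpos := a2 hfin
    have hf' : m.f = true ↔ nr h rel p0 w (bt h t m + Ly h m) (ix h (m.x.k + 1)) := by
      rw [hf]
      unfold tst
      rw [hfin]
      simp only [Bool.false_eq_true, if_false, decide_eq_true_eq]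
      constructor
      · rintro ⟨q, h1, rfl⟩
        exact h1
      · intro h1
        exact ⟨_, h1, rfl⟩
    have hix : ix h (m.x.k + 1) = ix h (t + 1) := by
      apply Fin.ext
      show (m.x.k + 1) % 2 ^ h = (t + 1) % 2 ^ h
      rw [x2, Nat.mod_add_mod]
    rw [hix] at hf'
    by_cases hk : m.x.k + 1 < 2 ^ h
    · rw [x2] at hk
      have e1 : (t + 1) % 2 ^ h = t % 2 ^ h + 1 := by
        rw [← Nat.mod_add_mod, Nat.mod_eq_of_lt hk]
      have e2 : (t + 1) / 2 ^ h * 2 ^ h = t / 2 ^ h * 2 ^ h := by
        have h1 := (mod_facts h (t + 1)).2.2.2.2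
        omega
      have hn : nxt h m.x m.f = ⟨m.x.first, m.x.k + 1, m.x.c0, cb m.x, m.f⟩ := by
        unfold nxt
        rw [x2, if_pos hk]
      rw [hn]
      have e3 : (t < 2 ^ h) ↔ (t + 1 < 2 ^ h) := by
        constructor
        · intro h1
          have := m3 h1
          omega
        · intro h1
          omega
      refine ⟨?_, ?_, ?_, ?_, ?_⟩
      · show m.x.first = decide (t + 1 < 2 ^ h)
        rw [x1]
        exact decide_eq_decide.2 e3
      · show m.x.k + 1 = (t + 1) % 2 ^ h
        rw [e1, x2]
      · show m.x.c0 = _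
        rw [x3, e2]
        by_cases h1 : t < 2 ^ h
        · rw [if_pos h1, if_pos (e3.1 h1)]
        · rw [if_neg h1, if_neg (fun hh => h1 (e3.2 hh))]
      · show cb m.x = _
        rw [cb_eq hx, e1, e2]
      · show m.f = true ↔ _
        rw [hf', e2]
        have e4 : bt h t m + Ly h m = t / 2 ^ h * 2 ^ h := by
          unfold bt Ly LL EE
          rw [hfin, x2]
          simp only [Bool.false_eq_true, if_false, hk, and_true, if_true]
          by_cases h1 : t < 2 ^ h
          · have hfirst : m.x.first = true := by rw [x1]; exact decide_eq_true h1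
            rw [hfirst]
            simp only [if_true]
            have := m3 h1
            omega
          · have hfirst : m.x.first = false := by rw [x1]; exact decide_eq_false h1
            rw [hfirst]
            simp only [Bool.false_eq_true, if_false]
            have := m4 (by omega)
            omega
        rw [e4]
    · rw [x2] at hk
      have hk' : t % 2 ^ h + 1 = 2 ^ h := by omega
      have e1 : (t + 1) % 2 ^ h = 0 := by
        rw [← Nat.mod_add_mod, hk', Nat.mod_self]
      have e2 : (t + 1) / 2 ^ h * 2 ^ h = t + 1 := by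
        have h1 := (mod_facts h (t + 1)).2.2.2.2
        omega
      have e5 : t / 2 ^ h * 2 ^ h = t + 1 - 2 ^ h := by omega
      have hge : ¬ t + 1 < 2 ^ h := by omega
      have hn : nxt h m.x m.f = ⟨false, 0, cb m.x, 0, m.f⟩ := by
        unfold nxt
        rw [x2, if_neg hk]
      rw [hn]
      refine ⟨?_, ?_, ?_, ?_, ?_⟩
      · show false = decide (t + 1 < 2 ^ h)
        rw [decide_eq_false hge]
      · show 0 = (t + 1) % 2 ^ h
        rw [e1]
      · show cb m.x = _
        rw [cb_eq hx, if_neg hge, e2, hk', e5]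
      · show 0 = _
        rw [e1, cnL_zero]
      · show m.f = true ↔ _
        rw [hf', e2]
        have e4 : bt h t m + Ly h m = t + 1 := by
          unfold bt Ly LL EE
          rw [hfin, x2]
          simp only [Bool.false_eq_true, if_false, hk, and_false]
          omega
        rw [e4]
  · intro hfin
    have hlen := a3 hfin
    rw [hf]
    have e4 : bt h t m + Ly h m = w.length := by
      unfold bt Ly LL EE
      rw [hfin, x2]
      simp only [if_true]
      by_cases h1 : t < 2 ^ h
      · have hfirst : m.x.first = true := by rw [x1]; exact decide_eq_true h1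
        rw [hfirst]
        simp only [if_true]
        have := m3 h1
        omega
      · have hfirst : m.x.first = false := by rw [x1]; exact decide_eq_false h1
        rw [hfirst]
        simp only [Bool.false_eq_true, if_false]
        have := m4 (by omega)
        omega
    rw [e4]
    unfold tst
    rw [hfin]
    simp only [if_true]
    constructor
    · rintro ⟨q, h1, h2⟩
      exact ⟨q, h2, h1⟩
    · rintro ⟨q, h1, h2⟩
      exact ⟨q, h2, h1⟩

end Pool.Agent.L0h71.UX
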